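import Pool.Agent.Q109.LD.Stm
import Pool.Agent.Q125.LD.Hrep
import Pool.Agent.Q125.LD.Ext
import Pool.Agent.Q125.LD.Slot
import Pool.Agent.Q125.LD.Tru
import Pool.Agent.Q25.LD_VIS
import Pool.Agent.Q25.LD_TB
import Pool.Agent.Q25.LD_GON
import Pool.Agent.Q25.LD_FAM3
import Pool.Agent.Q25.LD_FAM4
import Pool.Agent.Q25.LD_FIN
import Pool.Agent.Q79.LD_CON
import Pool.Agent.Q79.LD_VB
import Pool.Agent.Q79.LD_CMP
import Pool.Agent.Q79.LD_UP3
import Pool.Agent.Q241.LD.GU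

set_option autoImplicit false

/-! # Project LD (MP_688354_co): assembly -/

namespace Q109.LD

theorem all : S_FIN := by
  have hE := Pool.Agent.Q125.LD.ext
  have hVB := Pool.Agent.Q79.LD.vb Pool.Agent.Q241.LD.gen hE (Pool.Agent.Q125.LD.slot hE)
  have hC := Pool.Agent.Q79.LD.cmp Pool.Agent.Q25.LD.vis hE hVB
  have hH := Pool.Agent.Q125.LD.hrep
  have h3 := Pool.Agent.Q79.LD.up3 hH (Pool.Agent.Q79.LD.con Pool.Agent.Q25.LD.vis) hC
    Pool.Agent.Q25.LD.tb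
  have hT := Pool.Agent.Q125.LD.tru (Pool.Agent.Q125.LD.bp hE) Pool.Agent.Q125.LD.fac
  exact Pool.Agent.Q25.LD.fin h3 (Pool.Agent.Q241.LD.up1 hH) hT
    (Pool.Agent.Q25.LD.fam3 Pool.Agent.Q25.LD.gon) (Pool.Agent.Q25.LD.fam4 Pool.Agent.Q25.LD.gon)

end Q109.LD
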