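import Mathlib

set_option autoImplicit false

/-! # Facet-representing point sets on centrally symmetric polytopes: definitions
(project LD, helper109, MP_688354_co) -/

namespace Q109.LD

open Set

/-- Euclidean space `ℝ^d`. -/
abbrev E (d : ℕ) : Type := EuclideanSpace ℝ (Fin d)

/-- A convex polytope: the convex hull of finitely many points. -/
def IsPolytope {d : ℕ} (P : Set (E d)) : Prop :=
  ∃ V : Finset (E d), P = convexHull ℝ (V : Set (E d))

/-- `P` is centrally symmetric (about some centre `c`). -/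
def IsCentrallySymmetric {d : ℕ} (P : Set (E d)) : Prop :=
  ∃ c : E d, ∀ x : E d, x ∈ P ↔ (2 : ℝ) • c - x ∈ P

/-- `F` is a facet of `P`: the nonempty intersection of `P` with a supporting hyperplane, of
dimension `d - 1`. -/
def IsFacet {d : ℕ} (P F : Set (E d)) : Prop :=
  ∃ (u : E d) (h : ℝ), u ≠ 0 ∧ (∀ x ∈ P, inner ℝ u x ≤ h) ∧
    F = {x | x ∈ P ∧ inner ℝ u x = h} ∧ F.Nonempty ∧
    Module.finrank ℝ (vectorSpan ℝ F) + 1 = d

/-- The finite set `K` of boundary points represents all facets of `P`. -/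
def Represents {d : ℕ} (P K : Set (E d)) : Prop :=
  K.Finite ∧ K ⊆ frontier P ∧ ∀ F, IsFacet P F → (K ∩ F).Nonempty

/-- The least number of boundary points needed to represent all facets. -/
noncomputable def minRep {d : ℕ} (P : Set (E d)) : ℕ :=
  sInf {k : ℕ | ∃ K : Set (E d), Represents P K ∧ K.ncard = k}

/-- `min |K| / |P|`, where `|P|` is the number of facets. -/
noncomputable def ratio {d : ℕ} (P : Set (E d)) : ℝ :=
  (minRep P : ℝ) / ({F : Set (E d) | IsFacet P F}.ncard : ℝ)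

/-- The ratios of all centrally symmetric convex polytopes with nonempty interior. -/
def ratios (d : ℕ) : Set ℝ :=
  {t | ∃ P : Set (E d), IsPolytope P ∧ (interior P).Nonempty ∧ IsCentrallySymmetric P ∧
    t = ratio P}

/-! ## Technical definitions -/

/-- polyhedron `{x | ⟪u i, x⟫ ≤ h i}` -/
def poly {d n : ℕ} (u : Fin n → E d) (h : Fin n → ℝ) : Set (E d) :=
  {x | ∀ i, inner ℝ (u i) x ≤ h i}

/-- the face of the `i`-th inequality -/
def fc {d n : ℕ} (u : Fin n → E d) (h : Fin n → ℝ) (i : Fin n) : Set (E d) :=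
  {x | x ∈ poly u h ∧ inner ℝ (u i) x = h i}

/-- irredundant description of a bounded polytope with nonempty interior -/
structure Irr {d n : ℕ} (u : Fin n → E d) (h : Fin n → ℝ) : Prop where
  unit : ∀ i, ‖u i‖ = 1
  bdd : Bornology.IsBounded (poly u h)
  int : ∃ x, ∀ i, inner ℝ (u i) x < h i
  beyond : ∀ i, ∃ x, h i < inner ℝ (u i) x ∧ ∀ j, j ≠ i → inner ℝ (u j) x < h j
  nonempty : ∀ i, (fc u h i).Nonempty

/-- the intersection graph of the faces -/
def ig {d n : ℕ} (u : Fin n → E d) (h : Fin n → ℝ) : SimpleGraph (Fin n) where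
  Adj i j := i ≠ j ∧ (fc u h i ∩ fc u h j).Nonempty
  symm := ⟨fun _ _ hij => ⟨hij.1.symm, by rw [Set.inter_comm]; exact hij.2⟩⟩
  loopless := ⟨fun _ hi => hi.1 rfl⟩

/-- data for the truncation: the polytope `Q = poly a b` and the points `W` -/
structure Tr (d N : ℕ) (a : Fin N → E d) (b : Fin N → ℝ) (W : Finset (E d)) (R : ℝ) : Prop where
  pos : 0 < R
  bpos : ∀ i, 0 < b i
  sym : ∀ x, x ∈ poly a b ↔ -x ∈ poly a b
  wsym : ∀ w ∈ W, -w ∈ W
  wmem : ∀ w ∈ W, w ∈ poly a b
  wnorm : ∀ w ∈ W, ‖w‖ ^ 2 = R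
  ball : ∀ x ∈ poly a b, ‖x‖ ^ 2 ≤ R

end Q109.LD
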