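import Pool.Agent.Q109.LD.Defs

set_option autoImplicit false

/-! # Project LD (helper109, MP_688354_co): statements with complete proofs

`L_3 = 2/3` and `L_d = 1` for `d ≥ 4`. -/

namespace Q109.LD

open Set

/-- **HREP**. The facet description of a polytope. The library has everything needed for a polytope
containing the unit ball around `0` (translate and scale): `Helper840.BC` (`Q`, `face`, `bipolar`,
`face_nonempty`, `face_finrank`, `face_inj`, `ext_ne_zero`, `Q_norm`), see the beginning of the proof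
in `Pool/Agent/Results/MP_b30d95_gt/FacetNumbers.lean` (facets = faces of the extreme points `y` of
the polar, `P = {x | ⟪x, y⟫ ≤ 1}`); normalise the normals to length one. Every facet arises: if
`F = {x ∈ P | ⟪u,x⟫ = h}` is a facet, every point of `F` is tight for some `u i` (otherwise it is an
interior point), so the convex set `F` is covered by the finitely many hyperplanes `⟪u i, x⟫ = h i`,
hence contained in one of them, and as `dim F = d - 1` that hyperplane equals `{⟪u,x⟫ = h}`.
`beyond`: the facet `fc u h i` is not contained in the union of the other hyperplanes (otherwise in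
one of them, and the two hyperplanes would be equal); take `p ∈ fc u h i` with `⟪u j, p⟫ < h j` for
all `j ≠ i` and `x = p + ε u i`. -/
def S_HREP : Prop := ∀ (d : ℕ), 1 ≤ d → ∀ P : Set (E d), IsPolytope P → (interior P).Nonempty →
  ∃ (n : ℕ) (u : Fin n → E d) (h : Fin n → ℝ), P = poly u h ∧ Irr u h ∧
    Function.Injective (fc u h) ∧ {F : Set (E d) | IsFacet P F} = Set.range (fc u h)

/-- **VIS** (connectedness of the visible facets). Let `p ∈ fc i`, `q ∈ fc j`,
`y t = (1-t) p + t q ∈ poly`, `t ∈ [0,1]`. For the violated indices `k` (`h k < ⟪u k, x⟫`) put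
`lam k t = (h k - ⟪u k, y t⟫) / (⟪u k, x⟫ - ⟪u k, y t⟫) ∈ [0,1)`, a continuous function of `t` (the
denominator is positive), and `lam t = min_k lam k t`. The point `z t = y t + lam t • (x - y t)` is
in `poly`, and in `fc k` if `lam k t = lam t`. The sets `T k = {t ∈ [0,1] | lam k t = lam t}` are
closed and cover `[0,1]`; `0 ∈ T i` (`lam i 0 = 0`), `1 ∈ T j`. By connectedness of `[0,1]` the closed
sets `⋃_{k ∈ A} T k` and `⋃_{k ∉ A} T k` intersect: `t ∈ T a ∩ T b`, and `z t ∈ fc a ∩ fc b`. -/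
def S_VIS : Prop := ∀ (d n : ℕ) (u : Fin n → E d) (h : Fin n → ℝ) (x : E d) (i j : Fin n)
  (A : Set (Fin n)), (fc u h i).Nonempty → (fc u h j).Nonempty → h i < inner ℝ (u i) x →
  h j < inner ℝ (u j) x → i ∈ A → j ∉ A →
  ∃ a ∈ A, ∃ b, b ∉ A ∧ h a < inner ℝ (u a) x ∧ h b < inner ℝ (u b) x ∧
    (fc u h a ∩ fc u h b).Nonempty

/-- **CON** (the whole graph is connected). Let `i ∈ A`, `j ∉ A`. If `u j ≠ -u i`, then
`⟪u i, u i + u j⟫ > 0` and `⟪u j, u i + u j⟫ > 0` (unit vectors), so `x = t (u i + u j)`, `t` large,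
violates both inequalities: VIS. If `u j = - u i` take `k` with `u k ≠ ± u i` (otherwise the
polyhedron contains with `x` all `x + t w`, `w ⟂ u i`, `w ≠ 0`, and is unbounded, as `d ≥ 2`), and
use the pair `(k, j)` if `k ∈ A` and `(i, k)` if `k ∉ A`. -/
def S_CON : Prop := ∀ (d n : ℕ), 2 ≤ d → ∀ (u : Fin n → E d) (h : Fin n → ℝ), Irr u h →
  ∀ A : Set (Fin n), A.Nonempty → Aᶜ.Nonempty →
    ∃ a ∈ A, ∃ b ∈ Aᶜ, (fc u h a ∩ fc u h b).Nonempty

/-- **GEN**. A finite-dimensional real vector space is not the union of finitely many proper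
subspaces (the orthogonal complements of the `w`). -/
def S_GEN : Prop := ∀ (d : ℕ) (W : Set (E d)), W.Finite → (∀ w ∈ W, w ≠ 0) →
  ∃ g : E d, ∀ w ∈ W, inner ℝ g w ≠ 0

/-- **EXT** (extreme points of a polyhedron). `A v = {i | ⟪a i, v⟫ = b i}`. If the `a i`, `i ∈ A v`,
do not span, take `w ≠ 0` orthogonal to them; `v ± ε w` is in the polyhedron for small `ε`, so `v`
is not extreme. Hence `v` is determined by `A v`, and there are only finitely many extreme points. -/
def S_EXT : Prop := ∀ (d m : ℕ) (a : Fin m → E d) (b : Fin m → ℝ),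
  (∀ v ∈ (poly a b).extremePoints ℝ,
    Submodule.span ℝ (a '' {i | inner ℝ (a i) v = b i}) = ⊤) ∧
  ((poly a b).extremePoints ℝ).Finite

/-- **SLOT**. Let `v` be an extreme point, `g` in general position (it is not orthogonal to any
`w ≠ 0` which is orthogonal to two linearly independent `a i`, `a j`). Then `v` is a maximum or a
minimum of `⟪g, ·⟫` on one of the faces `fc a b i` with `i ∈ A v = {i | ⟪a i, v⟫ = b i}`. Proof: let
`K = {e | ⟪a i, e⟫ ≤ 0 for i ∈ A v}`. By EXT `K` contains no line. Otherwise for every `i ∈ A v`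
there are `y, y' ∈ fc a b i` with `⟪g, y⟫ > ⟪g, v⟫ > ⟪g, y'⟫`; the vectors `y - v`, `y' - v` are in
`K` and orthogonal to `a i`, and a combination `e i` of them with positive coefficients is orthogonal
to `g`; it is not zero because `K` contains no line. So `e i ∈ K ∩ g^⊥`, `e i ≠ 0`, `⟪a i, e i⟫ = 0`.
`g^⊥` is a plane and `K ∩ g^⊥` contains no line, so among the finitely many vectors `e i` there are
two, `r₁` and `r₂` (possibly equal), such that all `e i` are nonnegative combinations of `r₁` and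
`r₂` (the ones with the extreme angles: with an area form `ω` on the plane, `ω(r₁, e i) ≥ 0` and
`ω(e i, r₂) ≥ 0` for all `i`). As `⟪a i, r₁⟫ ≤ 0`, `⟪a i, r₂⟫ ≤ 0`, `⟪a i, e i⟫ = 0`: for every
`i ∈ A v`, `⟪a i, r₁⟫ = 0` or `⟪a i, r₂⟫ = 0`. The `a i` with `⟪a i, r₁⟫ = 0` are pairwise linearly
dependent by the choice of `g` (`⟪g, r₁⟫ = 0`), so they span at most a line; the same for `r₂`; so
all `a i`, `i ∈ A v`, span at most a plane, contradicting EXT. -/
def S_SLOT : Prop := ∀ (m : ℕ) (a : Fin m → E 3) (b : Fin m → ℝ) (g : E 3),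
  (∀ i j, LinearIndependent ℝ ![a i, a j] → ∀ w : E 3, w ≠ 0 → inner ℝ (a i) w = 0 →
    inner ℝ (a j) w = 0 → inner ℝ g w ≠ 0) →
  ∀ v ∈ (poly a b).extremePoints ℝ, ∃ i, inner ℝ (a i) v = b i ∧
    ((∀ y ∈ fc a b i, inner ℝ g y ≤ inner ℝ g v) ∨ ∀ y ∈ fc a b i, inner ℝ g v ≤ inner ℝ g y)

/-- **VB** (vertex bound `V ≤ 2 m - 4`). By GEN choose `g` such that `⟪g, ·⟫` takes different values at
different extreme points (finitely many, EXT) and the hypothesis of SLOT holds (for linearly
independent `a i`, `a j` the `w` orthogonal to both are the multiples of one vector `w ≠ 0`, in `E 3`).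
For an extreme point `v` let `Slot v` be the set of pairs `(i, σ)` with `⟪a i, v⟫ = b i` and `v` a
maximum (`σ = true`), resp. a minimum (`σ = false`), of `⟪g, ·⟫` on `fc a b i`. The sets `Slot v` are
pairwise disjoint (different values of `⟪g, ·⟫`), nonempty (SLOT), and contained in `Fin m × Bool`.
The maximum of `⟪g, ·⟫` on the compact convex set `poly a b` is attained at an extreme point `T`,
and `Slot T` contains all `(i, true)` with `⟪a i, T⟫ = b i`, at least three by EXT; the same for the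
minimum `B`; `T ≠ B` as `poly a b` has interior points and `g ≠ 0`. So `V - 2 + 3 + 3 ≤ 2 m`. -/
def S_VB : Prop := ∀ (m : ℕ) (a : Fin m → E 3) (b : Fin m → ℝ),
  Bornology.IsBounded (poly a b) → (∃ x, ∀ i, inner ℝ (a i) x < b i) →
  ((poly a b).extremePoints ℝ).ncard + 4 ≤ 2 * m

/-- **CMP** (components after deletion of the set `S`). `C k` are disjoint nonempty sets of indices
outside of `S`, and no face with index in `C k` meets a face whose index is outside of `C k ∪ S`.
Then there are at most `2 |S|` of them. Let `PS = {x | ⟪u s, x⟫ ≤ h s for s ∈ S}`.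
(a) If `x ∈ PS` violates an inequality `a ∈ C k` and an inequality `b ∉ C k`, then VIS with
`A = C k` gives `a' ∈ C k`, `b' ∉ C k`, both violated at `x` (so not in `S`), whose faces meet:
contradiction. So (a') no `x ∈ PS` violates `a ∈ C k` and `b ∉ C k`.
(b) For every `k` there is `p k ∈ PS` violating some `c k ∈ C k` (`Irr.beyond`).
Case 1: there is `e ≠ 0` orthogonal to all `u s`, `s ∈ S`. As the polytope is bounded there are `i`,
`i'` with `⟪u i, e⟫ > 0`, `⟪u i', e⟫ < 0`. Suppose `K ≥ 3`. Some `C k` contains neither `i` nor `i'`.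
If `⟪u (c k), e⟫ ≥ 0`, the point `p k + t e`, `t` large, is in `PS` and violates `c k` and `i`,
contradicting (a'); if `⟪u (c k), e⟫ < 0` use `p k - t e` and `i'`. So `K ≤ 2 ≤ 2 |S|`.
Case 2: the `u s`, `s ∈ S`, span. Let `g = - ∑_{s ∈ S} u s` and `M` larger than `⟪g, ·⟫` at the
points `p k` and at an interior point of the polytope. `P' = {x ∈ PS | ⟪g, x⟫ ≤ M}` is bounded:
`⟪u s, x⟫ ≤ h s` and `∑_s ⟪u s, x⟫ ≥ - M` bound all `⟪u s, x⟫` from both sides, and the `u s` span.
It has `|S| + 1` inequalities, so at most `2 |S| - 2` extreme points by VB. For every `k` the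
maximum of `⟪u (c k), ·⟫` over `P'` is attained at an extreme point `v k`, and it violates `c k`.
By (a') the `v k` are different: `K ≤ 2 |S|`. -/
def S_CMP : Prop := ∀ (n : ℕ) (u : Fin n → E 3) (h : Fin n → ℝ), Irr u h →
  ∀ (S : Finset (Fin n)), S.Nonempty → ∀ (K : ℕ) (C : Fin K → Set (Fin n)),
  (∀ k, (C k).Nonempty) → (∀ k, ∀ i ∈ C k, i ∉ S) → (∀ k l, k ≠ l → Disjoint (C k) (C l)) →
  (∀ k, ∀ a ∈ C k, ∀ b, b ∉ C k → b ∉ S → ¬ (fc u h a ∩ fc u h b).Nonempty) → K ≤ 2 * S.card

/-- **TB** (Tutte–Berge, existence of a large matching). If for every set `S` of vertices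
`3 (odd(G - S) - |S|) ≤ n`, then `G` has a matching with at least `n/3` edges. The library may have
the Tutte–Berge formula (or derive it from Mathlib's Tutte theorem `SimpleGraph.tutte` by adding
vertices adjacent to everything). Here the number of odd components is given in an elementary way:
there is a number `D` (the deficiency) such that for all `K > D + |S|` there are no `K` pairwise
disjoint nonempty sets of odd cardinality in the complement of `S` without edges between `C k`
and the outside of `C k ∪ S`. The matching: an injective `Fin r → pairs`, `D ≥ n - 2 r`. -/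
def S_TB : Prop := ∀ (n : ℕ) (G : SimpleGraph (Fin n)) (D : ℕ),
  (∀ (S : Finset (Fin n)) (K : ℕ) (C : Fin K → Finset (Fin n)),
    (∀ k, Odd (C k).card) → (∀ k, Disjoint (C k) S) → (∀ k l, k ≠ l → Disjoint (C k) (C l)) →
    (∀ k, ∀ a ∈ C k, ∀ b, b ∉ C k → b ∉ S → ¬ G.Adj a b) → K ≤ D + S.card) →
  ∃ (r : ℕ) (e : Fin r → Fin n × Fin n), (∀ k, G.Adj (e k).1 (e k).2) ∧
    (∀ k l, k ≠ l → (e k).1 ≠ (e l).1 ∧ (e k).1 ≠ (e l).2 ∧ (e k).2 ≠ (e l).2) ∧ n ≤ 2 * r + D

/-- **UP3**. Let `P = poly u h` with `n` facets (HREP), `G = ig u h`, `D = ⌊n/3⌋`. Hypothesis of TB: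
let `S`, `K`, `C` be given. `S` nonempty: `K ≤ 2 |S|` by CMP, and `K + |S| ≤ n` (disjoint nonempty
sets), so `3 (K - |S|) ≤ K + |S| ≤ n`. `S = ∅`: by CON (`C k` and its complement) every `C k` is
everything, so `K ≤ 1`, and `n ≥ 4 ≥ 3` (for `n ≤ 3` there is `e ≠ 0` with `⟪u i, e⟫ ≤ 0` for all
`i`, and `poly u h` is unbounded). So there is a matching with `r` edges, `n ≤ 2 r + n/3`. Choose a
point in `fc a ∩ fc b` for each edge `{a,b}` of the matching, and a point of `fc i` for each index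
not covered: at most `r + (n - 2 r) = n - r ≤ 2 n / 3` points. They are in the frontier of `P`
because facets are contained in supporting hyperplanes. So `minRep P ≤ 2 n / 3`. -/
def S_UP3 : Prop := ∀ P : Set (E 3), IsPolytope P → (interior P).Nonempty → ratio P ≤ 2 / 3

/-- **UP1**. One point in each facet: `minRep P ≤` number of facets. -/
def S_UP1 : Prop := ∀ (d : ℕ), 1 ≤ d → ∀ P : Set (E d), IsPolytope P → (interior P).Nonempty →
  ratio P ≤ 1

/-- **BP**. A bounded polyhedron is a polytope: it is compact and convex, has finitely many extreme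
points (EXT), and is the closed convex hull of them (Krein–Milman); the convex hull of a finite set
is closed. -/
def S_BP : Prop := ∀ (d m : ℕ) (a : Fin m → E d) (b : Fin m → ℝ),
  Bornology.IsBounded (poly a b) → IsPolytope (poly a b)

/-- **FAC**. A polyhedron given by `m` inequalities has at most `m` facets. If
`F = {x ∈ poly a b | ⟪u,x⟫ = h}` is a facet, then every point of `F` is tight for one of the
inequalities with `a i ≠ 0` (a point with `⟪a i, x⟫ < b i` for all `i` with `a i ≠ 0` is an interior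
point, but `⟪u, ·⟫ ≤ h` on `poly a b` with equality at the point). So the convex set `F` is covered by
finitely many hyperplanes, hence contained in one of them, `{⟪a i, x⟫ = b i}`; as `dim F = d - 1`
this hyperplane equals `{⟪u,x⟫ = h}` and `F = fc a b i`. -/
def S_FAC : Prop := ∀ (d m : ℕ) (a : Fin m → E d) (b : Fin m → ℝ),
  {F : Set (E d) | IsFacet (poly a b) F} ⊆ Set.range (fc a b)

/-- **TRU** (truncation). Let `δ` be the least distance of two points of `W` and `ε > 0` with
`8 ε < δ^2` and `ε < R`. `P = {x ∈ poly a b | ⟪w, x⟫ ≤ R - ε for w ∈ W}` is given by `N + |W|`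
inequalities, is bounded, symmetric, contains a neighbourhood of `0`; so it is a centrally symmetric
polytope (BP) with at most `N + |W|` facets (FAC). For `w ∈ W` let
`G w = {x ∈ P | ⟪w, x⟫ = R - ε}`. It is a facet: the point `y = (1 - ε/R) w` satisfies
`⟪a i, y⟫ ≤ (1 - ε/R) b i < b i`, `⟪w, y⟫ = R - ε`, and `⟪w', y⟫ = (1 - ε/R) ⟪w', w⟫ < R - ε` for
`w' ≠ w` in `W` (strict Cauchy–Schwarz, equal norms), so all points of the hyperplane
`⟪w, x⟫ = R - ε` near `y` are in `P`. For `w ≠ w'`, `G w ∩ G w' = ∅`: for `x` in both,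
`‖x - w‖^2 = ‖x‖^2 - 2 (R - ε) + R ≤ 2 ε`, the same for `w'`, so `‖w - w'‖^2 ≤ 8 ε < δ^2`. So a set
representing all facets has at least `|W|` points, and (one point in each facet shows that the set
in the definition of `minRep` is not empty) `ratio P ≥ |W| / (N + |W|)`. -/
def S_TRU : Prop := ∀ (d N : ℕ), 1 ≤ d → ∀ (a : Fin N → E d) (b : Fin N → ℝ) (W : Finset (E d))
  (R : ℝ), Tr d N a b W R → W.Nonempty →
  ∃ t ∈ ratios d, (W.card : ℝ) / ((N : ℝ) + (W.card : ℝ)) ≤ t

/-- **GON** (regular `2m`-gon). `⟪(cos α, sin α), (cos β, sin β)⟫ = cos (α - β)`.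
(1) `cos ((2k+1)π/(2m) - jπ/m) ≤ cos (π/(2m))`: the angle is an odd multiple of `π/(2m)`.
(2) Let `(x,y) = r (cos θ, sin θ)`, `r ≥ 0`; some odd multiple `(2k+1)π/(2m)` (mod `2π`) is at
distance at most `π/(2m)` from `θ`, so `r cos (π/(2m)) ≤ r cos(θ - (2k+1)π/(2m)) ≤ cos (π/(2m))`,
`r ≤ 1`. (3) the points `p j` are different. (4) symmetry: `k ↦ k + m`. -/
def S_GON : Prop := ∀ m : ℕ, 2 ≤ m →
  (0 < Real.cos (Real.pi / (2 * m))) ∧
  (∀ j k : ℕ, Real.cos ((2 * k + 1) * Real.pi / (2 * m)) * Real.cos (j * Real.pi / m) +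
    Real.sin ((2 * k + 1) * Real.pi / (2 * m)) * Real.sin (j * Real.pi / m) ≤
      Real.cos (Real.pi / (2 * m))) ∧
  (∀ x y : ℝ, (∀ k : ℕ, k < 2 * m → Real.cos ((2 * k + 1) * Real.pi / (2 * m)) * x +
    Real.sin ((2 * k + 1) * Real.pi / (2 * m)) * y ≤ Real.cos (Real.pi / (2 * m))) →
      x ^ 2 + y ^ 2 ≤ 1) ∧
  (∀ j k : ℕ, j < 2 * m → k < 2 * m → Real.cos (j * Real.pi / m) = Real.cos (k * Real.pi / m) →
    Real.sin (j * Real.pi / m) = Real.sin (k * Real.pi / m) → j = k) ∧
  (∀ k : ℕ, k < 2 * m → ∃ l : ℕ, l < 2 * m ∧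
    Real.cos ((2 * l + 1) * Real.pi / (2 * m)) = -Real.cos ((2 * k + 1) * Real.pi / (2 * m)) ∧
    Real.sin ((2 * l + 1) * Real.pi / (2 * m)) = -Real.sin ((2 * k + 1) * Real.pi / (2 * m)) ∧
    Real.cos (l * Real.pi / m) = -Real.cos (k * Real.pi / m) ∧
    Real.sin (l * Real.pi / m) = -Real.sin (k * Real.pi / m))

/-- **FAM3**. `E 3`: the `2m` inequalities `⟪(cos, sin)((2k+1)π/(2m)), (x₀,x₁)⟫ ≤ cos (π/(2m))` and
`± x₂ ≤ 1`; `W` = the `4m` points `(cos (jπ/m), sin (jπ/m), ±1)`, `R = 2`. -/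
def S_FAM3 : Prop := ∀ m : ℕ, 2 ≤ m → ∃ (a : Fin (2 * m + 2) → E 3) (b : Fin (2 * m + 2) → ℝ)
  (W : Finset (E 3)), W.card = 4 * m ∧ Tr 3 (2 * m + 2) a b W 2

/-- **FAM4**. `E d`, `d ≥ 4`: the `4m` inequalities of two `2m`-gons in the coordinates `0, 1` and
`2, 3`, and `± x i ≤ 1` for the other coordinates, `N = 4m + 2(d-4)`; `W` contains the points
`(p j, p k, η, ..., η)`, `η = ±1`, `p j = (cos (jπ/m), sin (jπ/m))`, `R = d - 2`; `|W| ≥ 4 m^2`. -/
def S_FAM4 : Prop := ∀ d m : ℕ, 4 ≤ d → 2 ≤ m → ∃ (a : Fin (4 * m + 2 * (d - 4)) → E d)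
  (b : Fin (4 * m + 2 * (d - 4)) → ℝ) (W : Finset (E d)) (R : ℝ), 4 * m ^ 2 ≤ W.card ∧
  Tr d (4 * m + 2 * (d - 4)) a b W R

/-- **FIN**. Upper bounds by UP3, UP1. Lower bounds: by TRU and FAM3 there are ratios at least
`4m / (6m + 2) → 2/3`; by TRU and FAM4 at least `w / (N + w) ≥ 4 m^2 / (4 m^2 + 4 m + 2 d) → 1`
(`w ↦ w / (N + w)` is increasing). -/
def S_FIN : Prop := IsLUB (ratios 3) (2 / 3) ∧ ∀ d : ℕ, 4 ≤ d → IsLUB (ratios d) 1

end Q109.LD
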